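import Pool.Agent.Q211.FS.Opc2

/-!
# Separability of compact metrizable spaces and of their countable products

The statement that every compact metrizable space is separable does not imply in ZF that every
countable product of compact metrizable spaces is separable. Hence the four statements in the
question are not pairwise equivalent in ZF.

The model is the symmetric submodel of `Pool.Agent.Q211.FS.Mod`. In it all compact metrizable spaces
are separable, and the cardinals `ℵ n` of the ground model are countable, but their union is not. The
product of the one-point compactifications of the discrete spaces `ℵ n` is not separable.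
-/

set_option autoImplicit false

namespace Pool.Agent.Results.MP_1454e8_lc.ProductNotSeparable

open Pool.Agent.W868 Pool.Agent.W868.PName Pool.Agent.Q211.SY Pool.Agent.Q211.FS

/-- There is a countable transitive model of ZF in which every compact metrizable space is
separable, but in which there is a sequence of compact metrizable spaces whose product is not
separable. -/
theorem result : ∃ M : Set ZFSet.{0}, M.Countable ∧ IsZF M ∧
    (∀ X ∈ M, ∀ τ ∈ M, MetrizableIn M X τ → CompactIn M X τ → SeparableIn M X τ) ∧
    ∃ X τ : ℕ → ZFSet.{0}, SeqIn M X ∧ SeqIn M τ ∧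
      (∀ n, MetrizableIn M (X n) (τ n) ∧ CompactIn M (X n) (τ n)) ∧
      ∃ P ∈ M, ∃ T ∈ M, IsProductIn M X τ P T ∧ ¬ SeparableIn M P T := by
  obtain ⟨π, h, hW⟩ := exists_mod {Pool.Agent.W868.check WW} (Set.countable_singleton _)
  have hWZ : WW ∈ π.Z := hW rfl
  have hWM : WW ∈ SA.Ms π := by
    rw [← hat_WW π]
    exact h.hat_mem hWZ
  obtain ⟨P, hP, T, hT, hpr⟩ := exists_product h.isZF h.seqX h.seqT
  exact ⟨_, IsMod.countable π, h.isZF, fun X hX τ hτ hm hc => separable h.cl hX hτ hm hc,
    _, _, h.seqX, h.seqT, fun n => ⟨metrizable_opc h.isZF hWM (h.hat_mem (h.al n)) (h.cnt_Al n),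
      compact_opc _⟩, P, hP, T, hT, hpr, h.not_separable hP hpr⟩

end Pool.Agent.Results.MP_1454e8_lc.ProductNotSeparable
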